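import Mathlib
import Pool.Agent.R813.SN.Defs
import Pool.Agent.R813.SN.Prod

set_option autoImplicit false

/-! The Schrijver number is not quasi-multiplicative with a constant exponent under strong
products. -/

namespace Pool.Agent.Results.MP_885abb_co.NotQuasiMultiplicative

open Pool.Agent.R813.SN

/-- (1) For no `r ≥ 2` is there a constant `C` such that the Schrijver number of the strong product
of any `r` graphs with Schrijver numbers at least two is at most the product of the `C`-th powers
of their Schrijver numbers.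
(2) For all `r ≥ 2` and `K ≥ 1` some graph has Schrijver number between `2` and `9 ^ (5 K)`, while
its `r`-th strong power has Schrijver number at least `9 ^ (2 K ^ 2) / 2`. -/
theorem result :
    (∀ r : ℕ, 2 ≤ r → ¬ ∃ C : ℝ, ∀ (V : Fin r → Type) [∀ i, Fintype (V i)]
      (G : ∀ i, SimpleGraph (V i)), (∀ i, 2 ≤ schrijver (G i)) →
        schrijver (strongProduct G) ≤ ∏ i, schrijver (G i) ^ C) ∧
    ∀ r K : ℕ, 2 ≤ r → 1 ≤ K → ∃ (V : Type) (_ : Fintype V) (G : SimpleGraph V),
      2 ≤ schrijver G ∧ schrijver G ≤ 9 ^ (5 * K) ∧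
        (9 : ℝ) ^ (2 * K ^ 2) / 2 ≤ schrijver (strongProduct fun _ : Fin r => G) := by
  refine ⟨?_, ?_⟩
  · rintro r hr ⟨C, hC⟩
    obtain ⟨m, hm⟩ := exists_nat_ge C
    set K := 5 * r * m + 1 with hK
    obtain ⟨N, τ, h1, h2, h3⟩ := growth K (by omega) hr
    have h4 := hC (fun _ => Q N) (fun _ => cubeG N τ) (fun _ => h1)
    set t := schrijver (cubeG N τ) with ht
    have h5 : ∏ _i : Fin r, t ^ C ≤ (9 : ℝ) ^ (5 * K * m * r) := by
      rw [Finset.prod_const, Finset.card_univ, Fintype.card_fin]
      calc (t ^ C) ^ r ≤ (t ^ (m : ℝ)) ^ r := by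
            refine pow_le_pow_left₀ (by positivity) ?_ r
            exact Real.rpow_le_rpow_of_exponent_le (by linarith) hm
        _ = (t ^ m) ^ r := by rw [Real.rpow_natCast]
        _ ≤ (((9 : ℝ) ^ (5 * K)) ^ m) ^ r := by
            refine pow_le_pow_left₀ (by positivity) ?_ r
            exact pow_le_pow_left₀ (by linarith) h2 m
        _ = (9 : ℝ) ^ (5 * K * m * r) := by rw [← pow_mul, ← pow_mul, ← mul_assoc]
    have h6 : (9 : ℝ) ^ (5 * K * m * r + 1) ≤ 9 ^ (2 * K ^ 2) := by
      refine pow_le_pow_right₀ (by norm_num) ?_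
      have : 2 * K ^ 2 = 2 * (5 * K * m * r) + 2 * K := by rw [hK]; ring
      omega
    have h7 : (0 : ℝ) < 9 ^ (5 * K * m * r) := by positivity
    rw [pow_succ] at h6
    linarith [h3.trans (h4.trans h5)]
  · intro r K hr hK
    obtain ⟨N, τ, h1, h2, h3⟩ := growth K hK hr
    exact ⟨Q N, inferInstance, cubeG N τ, h1, h2, h3⟩

end Pool.Agent.Results.MP_885abb_co.NotQuasiMultiplicative
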